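import Mathlib
import Pool.Agent.Helper75.PZ.GoalsA

namespace Pool.Agent.Helper2.PZ

open Finset Filter Topology
open Pool.Agent.Helper75.PZ

theorem hyp_mono {M : Type} [MetricSpace M] {p : ℕ → M} {t : ℕ → ℝ} {g : ℕ → ℝ → M} {n : ℕ}
    {f F : ℝ → ℝ} {K B B' : ℝ} (h : CatHyp p t g (n + 1) f F K B B') :
    CatHyp p t g n f F K B B' where
  t0 := fun i hi => h.t0 i (by omega)
  tot := by
    have h1 := h.tot
    rw [sum_range_succ] at h1
    have h2 := h.t0 n (by omega)
    linarith
  g0 := fun i hi => h.g0 i (by omega)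
  g1 := fun i hi => h.g1 i (by omega)
  gL := fun i hi => h.gL i (by omega)
  gR := fun i hi => h.gR i (by omega)
  gH := fun i hi => h.gH i (by omega)
  pK := fun i hi => h.pK i (by omega)
  f0 := h.f0
  fm := h.fm
  f1 := h.f1
  F1 := h.F1
  hB := h.hB
  BB := h.BB

theorem dist_le_K {M : Type} [MetricSpace M] {p : ℕ → M} {t : ℕ → ℝ} {K : ℝ} :
    ∀ n : ℕ, (∀ i < n, dist (p i) (p (i + 1)) ≤ K * t i) →
      dist (p 0) (p n) ≤ K * ∑ i ∈ range n, t i := by
  intro n
  induction n with
  | zero => intro _; simp
  | succ n ih =>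
    intro h
    have h1 := ih (fun i hi => h i (by omega))
    have h2 := h n (by omega)
    rw [sum_range_succ, mul_add]
    linarith [dist_triangle (p 0) (p n) (p (n + 1))]

theorem cat_lt {M : Type} (p : ℕ → M) (t : ℕ → ℝ) (g : ℕ → ℝ → M) (n : ℕ) (u : ℝ)
    (h : u < ∑ i ∈ range n, t i) :
    Pool.Agent.Helper75.PZ.cat p t g (n + 1) u = Pool.Agent.Helper75.PZ.cat p t g n u := by
  simp only [Pool.Agent.Helper75.PZ.cat]
  rw [if_pos h]

theorem cat_ge {M : Type} (p : ℕ → M) (t : ℕ → ℝ) (g : ℕ → ℝ → M) (n : ℕ) (u : ℝ)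
    (h : ∑ i ∈ range n, t i ≤ u) :
    Pool.Agent.Helper75.PZ.cat p t g (n + 1) u = g n (u - ∑ i ∈ range n, t i) := by
  simp only [Pool.Agent.Helper75.PZ.cat]
  rw [if_neg (not_lt.mpr h)]

theorem cat_thm : P_CAT := by
  intro M _ p t g n f F K B B' h
  induction n with
  | zero =>
    have hF : ∀ a : ℝ, 0 ≤ a → 0 ≤ F a := by
      intro a ha
      have h1 := h.F1 a 0 ha le_rfl
      have h2 := h.f0 a ha
      have h3 := h.f0 0 le_rfl
      rw [add_zero] at h1
      linarith
    have hB' : 0 ≤ B' := by linarith [h.hB, h.BB]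
    refine ⟨fun u _ => rfl, fun u _ => rfl, fun u hu => ?_, fun u hu => ?_, fun u v huv => ?_⟩
    · simp only [Pool.Agent.Helper75.PZ.cat, dist_self]
      linarith [h.f0 u hu, h.hB]
    · simp only [Pool.Agent.Helper75.PZ.cat, dist_self, range_zero, sum_empty] at hu ⊢
      linarith [h.f0 (0 - u) (by linarith), h.hB]
    · simp only [Pool.Agent.Helper75.PZ.cat, dist_self]
      linarith [hF (v - u) (by linarith)]
  | succ n ih =>
    obtain ⟨c0, c1, cL, cR, cH⟩ := ih (hyp_mono h)
    have hT0 : 0 ≤ ∑ i ∈ range n, t i :=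
      sum_nonneg (fun i hi => h.t0 i (by have := mem_range.mp hi; omega))
    have htn : 0 ≤ t n := h.t0 n (by omega)
    have hT1 : ∑ i ∈ range n, t i + t n ≤ 1 := by
      have h1 := h.tot
      rwa [sum_range_succ] at h1
    have hd : dist (p 0) (p n) ≤ K * ∑ i ∈ range n, t i :=
      dist_le_K n (fun i hi => h.pK i (by omega))
    rw [sum_range_succ]
    set S : ℝ := ∑ i ∈ range n, t i with hS
    -- value at nonpositive times
    have d0 : ∀ u ≤ 0, Pool.Agent.Helper75.PZ.cat p t g (n + 1) u = p 0 := by
      intro u hu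
      rcases lt_or_ge u S with h1 | h1
      · rw [cat_lt p t g n u h1]; exact c0 u hu
      · rw [cat_ge p t g n u h1]
        have h2 : S = 0 := by linarith
        have h3 : u = 0 := by linarith
        rw [h.g0 n (by omega) _ (by rw [← hS, h2, h3]; simp)]
        have h4 : dist (p 0) (p n) ≤ 0 := by
          have := hd
          rw [h2, mul_zero] at this
          exact this
        exact (dist_le_zero.mp h4).symm
    have d1 : ∀ u, S + t n ≤ u → Pool.Agent.Helper75.PZ.cat p t g (n + 1) u = p (n + 1) := by
      intro u hu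
      rw [cat_ge p t g n u (by rw [← hS]; linarith)]
      exact h.g1 n (by omega) _ (by rw [← hS]; linarith)
    have dL1 : ∀ u, 0 ≤ u → u ≤ 1 →
        dist (p 0) (Pool.Agent.Helper75.PZ.cat p t g (n + 1) u) ≤ f u + B := by
      intro u hu hu1
      rcases lt_or_ge u S with h1 | h1
      · rw [cat_lt p t g n u h1]; exact cL u hu
      · rw [cat_ge p t g n u h1, ← hS]
        have h2 := h.gL n (by omega) (u - S) (by linarith)
        have h3 := h.f1 S u hT0 h1 hu1
        linarith [dist_triangle (p 0) (p n) (g n (u - S))]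
    have dR1 : ∀ u, 0 ≤ u → u ≤ S + t n →
        dist (Pool.Agent.Helper75.PZ.cat p t g (n + 1) u) (p (n + 1)) ≤ f (S + t n - u) + B := by
      intro u hu hu1
      rcases lt_or_ge u S with h1 | h1
      · rw [cat_lt p t g n u h1]
        have h2 := cR u h1.le
        have h3 := h.pK n (by omega)
        have h4 := h.f1 (t n) (S + t n - u) htn (by linarith) (by linarith)
        have h5 : S + t n - u - t n = S - u := by ring
        rw [h5] at h4
        linarith [dist_triangle (Pool.Agent.Helper75.PZ.cat p t g n u) (p n) (p (n + 1))]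
      · rw [cat_ge p t g n u h1, ← hS]
        have h2 := h.gR n (by omega) (u - S) (by linarith)
        have h5 : t n - (u - S) = S + t n - u := by ring
        rw [h5] at h2
        exact h2
    refine ⟨d0, d1, fun u hu => ?_, fun u hu => ?_, fun u v huv => ?_⟩
    · rcases le_or_gt u 1 with h1 | h1
      · exact dL1 u hu h1
      · have h2 := dL1 1 (by norm_num) le_rfl
        rw [d1 1 hT1] at h2
        rw [d1 u (by linarith)]
        have h3 := h.fm 1 u (by norm_num) h1.le
        linarith
    · rcases le_or_gt 0 u with h1 | h1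
      · exact dR1 u h1 hu
      · have h2 := dR1 0 le_rfl (by linarith)
        rw [d0 0 le_rfl] at h2
        rw [d0 u h1.le]
        have h3 := h.fm (S + t n - 0) (S + t n - u) (by linarith) (by linarith)
        linarith
    · rcases lt_or_ge v S with h1 | h1
      · rw [cat_lt p t g n v h1, cat_lt p t g n u (lt_of_le_of_lt huv h1)]
        exact cH u v huv
      · rcases lt_or_ge u S with h2 | h2
        · rw [cat_lt p t g n u h2, cat_ge p t g n v h1, ← hS]
          have h3 := cR u h2.le
          have h4 := h.gL n (by omega) (v - S) (by linarith)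
          have h5 := h.F1 (S - u) (v - S) (by linarith) (by linarith)
          have h6 : S - u + (v - S) = v - u := by ring
          rw [h6] at h5
          linarith [dist_triangle (Pool.Agent.Helper75.PZ.cat p t g n u) (p n) (g n (v - S)),
            h.BB]
        · rw [cat_ge p t g n u h2, cat_ge p t g n v h1, ← hS]
          have h3 := h.gH n (by omega) (u - S) (v - S) (by linarith)
          have h6 : v - S - (u - S) = v - u := by ring
          rw [h6] at h3
          exact h3

end Pool.Agent.Helper2.PZ
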